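import Pool.Agent.L7h71.FP.StmA
import Pool.Agent.H566W.Ana

set_option autoImplicit false

/-!
From closed groups to classes of structures (part A of the project of helper71): first-order
formulas which do not mention the relation `i₀`, their theory is a complete invariant of the
structures with an oligomorphic group (up to the relation `i₀`), and the assembly.
-/

namespace Pool.Agent.L7h7.FP

open Set Filter MeasureTheory Function
open Pool.Agent.L7h71.FP
open Pool.Agent.L7h71.COV (Str Iso)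
open Pool.Agent.L7h71.CC (Perf perf_of_inv)

/-- first-order formulas with `k` free variables -/
inductive Fm (a : ℕ → ℕ) : ℕ → Type
  /-- equality -/
  | eq {k : ℕ} : Fin k → Fin k → Fm a k
  /-- atoms -/
  | rel {k : ℕ} : (i : ℕ) → (Fin (a i) → Fin k) → Fm a k
  /-- negation -/
  | neg {k : ℕ} : Fm a k → Fm a k
  /-- conjunction -/
  | and {k : ℕ} : Fm a k → Fm a k → Fm a k
  /-- existence -/
  | ex {k : ℕ} : Fm a (k + 1) → Fm a k

variable {a : ℕ → ℕ}

/-- depth -/
def dep : {k : ℕ} → Fm a k → ℕ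
  | _, .eq _ _ => 0
  | _, .rel _ _ => 0
  | _, .neg φ => dep φ + 1
  | _, .and φ ψ => max (dep φ) (dep ψ) + 1
  | _, .ex φ => dep φ + 1

theorem dep_countable (n k : ℕ) : {φ : Fm a k | dep φ ≤ n}.Countable := by
  induction n generalizing k with
  | zero =>
    have : {φ : Fm a k | dep φ ≤ 0} ⊆ range (fun p : Fin k × Fin k => Fm.eq p.1 p.2) ∪
        range (fun p : Σ i, (Fin (a i) → Fin k) => Fm.rel p.1 p.2) := by
      intro φ hφ
      cases φ with
      | eq b b' => exact Or.inl ⟨(b, b'), rfl⟩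
      | rel i s => exact Or.inr ⟨⟨i, s⟩, rfl⟩
      | neg φ => exact absurd hφ (by simp [dep])
      | and φ ψ => exact absurd hφ (by simp [dep])
      | ex φ => exact absurd hφ (by simp [dep])
    exact ((countable_range _).union (countable_range _)).mono this
  | succ n ih =>
    have : {φ : Fm a k | dep φ ≤ n + 1} ⊆ {φ : Fm a k | dep φ ≤ n} ∪
        (Fm.neg '' {φ : Fm a k | dep φ ≤ n} ∪
        ((fun p : Fm a k × Fm a k => Fm.and p.1 p.2) '' ({φ | dep φ ≤ n} ×ˢ {φ | dep φ ≤ n}) ∪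
        Fm.ex '' {φ : Fm a (k + 1) | dep φ ≤ n})) := by
      intro φ hφ
      cases φ with
      | eq b b' => exact Or.inl (by simp [dep])
      | rel i s => exact Or.inl (by simp [dep])
      | neg φ =>
        right; left
        exact ⟨φ, by simpa [dep] using hφ, rfl⟩
      | and φ ψ =>
        right; right; left
        have : max (dep φ) (dep ψ) + 1 ≤ n + 1 := hφ
        exact ⟨(φ, ψ), ⟨by show dep φ ≤ n; omega, by show dep ψ ≤ n; omega⟩, rfl⟩
      | ex φ =>
        right; right; right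
        exact ⟨φ, by simpa [dep] using hφ, rfl⟩
    refine Countable.mono this ((ih k).union (((ih k).image _).union ((((ih k).prod (ih k)).image
      _).union ((ih (k + 1)).image _))))

instance instCountFm (k : ℕ) : Countable (Fm a k) := by
  have : (univ : Set (Fm a k)) = ⋃ n, {φ : Fm a k | dep φ ≤ n} := by
    ext φ
    simp only [mem_univ, mem_iUnion, mem_setOf_eq, true_iff]
    exact ⟨_, le_rfl⟩
  rw [← countable_univ_iff, this]
  exact countable_iUnion fun n => dep_countable n k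

/-- satisfaction; the relation `i₀` is not used -/
def Sat (i₀ : ℕ) (x : Str a) : {k : ℕ} → Fm a k → (Fin k → ℕ) → Prop
  | _, .eq s t, u => u s = u t
  | _, .rel i t, u => i ≠ i₀ ∧ x i (u ∘ t) = true
  | _, .neg φ, u => ¬ Sat i₀ x φ u
  | _, .and φ ψ, u => Sat i₀ x φ u ∧ Sat i₀ x ψ u
  | k, .ex φ, u => ∃ n : ℕ, Sat i₀ x φ (Fin.snoc (α := fun _ => ℕ) u n)

/-- isomorphisms up to the relation `i₀` -/
def Pres (i₀ : ℕ) (x y : Str a) (σ : Equiv.Perm ℕ) : Prop :=
  ∀ i, i ≠ i₀ → ∀ v : Fin (a i) → ℕ, y i (⇑σ ∘ v) = x i v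

theorem sat_pres {i₀ : ℕ} {x y : Str a} {σ : Equiv.Perm ℕ} (h : Pres i₀ x y σ) {k : ℕ}
    (φ : Fm a k) (u : Fin k → ℕ) : Sat i₀ y φ (σ ∘ u) ↔ Sat i₀ x φ u := by
  induction φ with
  | eq s t => simp [Sat]
  | rel i t =>
    simp only [Sat]
    refine and_congr_right fun hi => ?_
    rw [comp_assoc, h i hi]
  | neg φ ih => simp only [Sat]; rw [ih]
  | and φ ψ ih1 ih2 => simp only [Sat]; rw [ih1, ih2]
  | ex φ ih =>
    simp only [Sat]
    have hu : ∀ n : ℕ, Fin.snoc (α := fun _ => ℕ) (σ ∘ u) (σ n) =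
        σ ∘ Fin.snoc (α := fun _ => ℕ) u n := by
      intro n
      exact (Fin.comp_snoc σ u n).symm
    constructor
    · rintro ⟨n, hn⟩
      refine ⟨σ.symm n, ?_⟩
      rw [← ih, ← hu, Equiv.apply_symm_apply]
      exact hn
    · rintro ⟨n, hn⟩
      exact ⟨σ n, by rw [hu, ih]; exact hn⟩

theorem measurable_Sat (i₀ : ℕ) {k : ℕ} (φ : Fm a k) (u : Fin k → ℕ) :
    Measurable fun x : Str a => Sat i₀ x φ u := by
  induction φ with
  | eq s t => exact measurable_const
  | rel i t =>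
    refine measurable_const.and ?_
    apply measurableSet_setOfPred.1
    have h1 : Measurable fun x : Str a => x i (u ∘ t) :=
      (measurable_pi_apply (u ∘ t)).comp (measurable_pi_apply i)
    exact h1 (measurableSet_singleton true)
  | neg φ ih => exact (ih u).not
  | and φ ψ ih1 ih2 => exact (ih1 u).and (ih2 u)
  | ex φ ih => exact Measurable.exists fun n => ih _

/-- conjunctions of lists -/
def conj {k : ℕ} : List (Fm a (k + 1)) → Fm a (k + 1)
  | [] => .eq 0 0
  | φ :: l => .and φ (conj l)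

theorem sat_conj {i₀ : ℕ} {x : Str a} {k : ℕ} (l : List (Fm a (k + 1))) (u : Fin (k + 1) → ℕ) :
    Sat i₀ x (conj l) u ↔ ∀ φ ∈ l, Sat i₀ x φ u := by
  induction l with
  | nil => simp [conj, Sat]
  | cons φ l ih =>
    simp only [conj, Sat, List.mem_cons, forall_eq_or_imp]
    rw [ih]

/-- the group of a structure, without the relation `i₀` -/
def Gr (i₀ : ℕ) (x : Str a) : PG where
  carrier := {g | Pres i₀ x x g}
  mul_mem' := by
    intro g h hg hh i hi v
    have h1 : ⇑(g * h) ∘ v = ⇑g ∘ (⇑h ∘ v) := rfl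
    rw [h1, hg i hi, hh i hi]
  one_mem' := fun i _ v => rfl
  inv_mem' := by
    intro g hg i hi v
    rw [← hg i hi]
    congr 1
    funext j
    simp

theorem mem_Gr {i₀ : ℕ} {x : Str a} {g : Equiv.Perm ℕ} : g ∈ Gr i₀ x ↔ Pres i₀ x x g := Iff.rfl

theorem clo_Gr (i₀ : ℕ) (x : Str a) : Clo (Gr i₀ x) := by
  intro g hg i hi v
  obtain ⟨h, h1, h2⟩ := hg (Finset.univ.image v)
  have h3 : ⇑g ∘ v = ⇑h ∘ v := by
    funext j
    exact (h2 (v j) (by simp)).symm
  rw [h3]
  exact h1 i hi v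

/-- the tuples `u` in `x` and `v` in `y` satisfy the same formulas -/
def Q (i₀ : ℕ) (x y : Str a) (k : ℕ) (u v : Fin k → ℕ) : Prop :=
  ∀ φ : Fm a k, Sat i₀ x φ u ↔ Sat i₀ y φ v

theorem Q.symm {i₀ : ℕ} {x y : Str a} {k : ℕ} {u v : Fin k → ℕ} (h : Q i₀ x y k u v) :
    Q i₀ y x k v u := fun φ => (h φ).symm

theorem forth {i₀ : ℕ} {x y : Str a} (hy : Oli (Gr i₀ y)) {k : ℕ} {u v : Fin k → ℕ}
    (h : Q i₀ x y k u v) (n : ℕ) :
    ∃ m : ℕ, Q i₀ x y (k + 1) (Fin.snoc (α := fun _ => ℕ) u n)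
      (Fin.snoc (α := fun _ => ℕ) v m) := by
  classical
  by_contra hne
  push Not at hne
  have h1 : ∀ m : ℕ, ∃ φ : Fm a (k + 1), Sat i₀ x φ (Fin.snoc (α := fun _ => ℕ) u n) ∧
      ¬ Sat i₀ y φ (Fin.snoc (α := fun _ => ℕ) v m) := by
    intro m
    have h2 := hne m
    unfold Q at h2
    push Not at h2
    obtain ⟨φ, h3 | h3⟩ := h2
    · exact ⟨φ, h3.1, h3.2⟩
    · exact ⟨.neg φ, h3.1, fun h4 => h4 h3.2⟩
  choose φ hφ1 hφ2 using h1
  have hfin : (range v).Finite := Set.finite_range v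
  have hT := hy (range v) hfin
  obtain ⟨T, hT'⟩ := hT.exists_finset
  have hrep : ∀ X : Set ℕ, ∃ m : ℕ, X.Nonempty → m ∈ X := by
    intro X
    by_cases hX : X.Nonempty
    · exact ⟨hX.some, fun _ => hX.some_mem⟩
    · exact ⟨0, fun h => absurd h hX⟩
  choose r hr using hrep
  have h4 : Sat i₀ x (.ex (conj (T.toList.map fun X => φ (r X)))) u := by
    refine ⟨n, ?_⟩
    rw [sat_conj]
    intro ψ hψ
    obtain ⟨X, -, rfl⟩ := List.mem_map.1 hψ
    exact hφ1 _
  rw [h] at h4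
  obtain ⟨m, hm⟩ := h4
  rw [sat_conj] at hm
  set X := O (st (Gr i₀ y) (range v)) m with hX
  have hXT : X ∈ T := (hT' X).2 ⟨m, rfl⟩
  have h5 := hm (φ (r X)) (List.mem_map.2 ⟨X, Finset.mem_toList.2 hXT, rfl⟩)
  have h6 : r X ∈ X := hr X ⟨m, O_refl _ m⟩
  obtain ⟨g, hg, hgm⟩ := h6
  apply hφ2 (r X)
  rw [← sat_pres (i₀ := i₀) (x := y) (y := y) (σ := g) hg.1] at h5
  have h7 : ⇑g ∘ Fin.snoc (α := fun _ => ℕ) v m = Fin.snoc (α := fun _ => ℕ) v (r X) := by
    rw [Fin.comp_snoc, hgm]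
    congr 1
    funext j
    exact hg.2 (v j) ⟨j, rfl⟩
  rw [h7] at h5
  exact h5

/-- the same for sequences -/
def QQ (i₀ : ℕ) (x y : Str a) (k : ℕ) (p : (ℕ → ℕ) × (ℕ → ℕ)) : Prop :=
  Q i₀ x y k (fun j => p.1 j) (fun j => p.2 j)

theorem snoc_update (U : ℕ → ℕ) (k n : ℕ) :
    (fun j : Fin (k + 1) => update U k n j) =
      Fin.snoc (α := fun _ => ℕ) (fun j : Fin k => U j) n := by
  funext j
  refine Fin.lastCases ?_ (fun j => ?_) j
  · rw [Fin.snoc_last]
    simp
  · rw [Fin.snoc_castSucc]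
    have : (j : ℕ) ≠ k := j.2.ne
    simp [this]

theorem step {i₀ : ℕ} {x y : Str a} (hx : Oli (Gr i₀ x)) (hy : Oli (Gr i₀ y)) (k : ℕ)
    (p : (ℕ → ℕ) × (ℕ → ℕ)) (h : QQ i₀ x y k p) :
    ∃ n m : ℕ, QQ i₀ x y (k + 1) (update p.1 k n, update p.2 k m) ∧ (k % 2 = 0 → n = k / 2) ∧
      (k % 2 = 1 → m = k / 2) := by
  rcases Nat.mod_two_eq_zero_or_one k with hk | hk
  · obtain ⟨m, hm⟩ := forth hy h (k / 2)
    refine ⟨k / 2, m, ?_, fun _ => rfl, fun h => by omega⟩
    unfold QQ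
    simp only
    rw [snoc_update, snoc_update]
    exact hm
  · obtain ⟨n, hn⟩ := forth hx (Q.symm h) (k / 2)
    refine ⟨n, k / 2, ?_, fun h => by omega, fun _ => rfl⟩
    unfold QQ
    simp only
    rw [snoc_update, snoc_update]
    exact Q.symm hn

/-- structures with oligomorphic groups and the same theory are isomorphic -/
theorem iso_of_theory {i₀ : ℕ} {x y : Str a} (hx : Oli (Gr i₀ x)) (hy : Oli (Gr i₀ y))
    (h : ∀ φ : Fm a 0, Sat i₀ x φ Fin.elim0 ↔ Sat i₀ y φ Fin.elim0) :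
    ∃ σ : Equiv.Perm ℕ, Pres i₀ x y σ := by
  classical
  choose N M h1 h2 h3 using step hx hy
  let S : (k : ℕ) → {p : (ℕ → ℕ) × (ℕ → ℕ) // QQ i₀ x y k p} := fun k =>
    Nat.rec (motive := fun k => {p : (ℕ → ℕ) × (ℕ → ℕ) // QQ i₀ x y k p})
      ⟨(fun _ => 0, fun _ => 0), by
        intro φ
        have e1 : (fun j : Fin 0 => (fun _ => 0 : ℕ → ℕ) j) = Fin.elim0 := Subsingleton.elim _ _
        simp only
        rw [e1]
        exact h φ⟩
      (fun k p => ⟨(update p.1.1 k (N k p.1 p.2), update p.1.2 k (M k p.1 p.2)),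
        h1 k p.1 p.2⟩) k
  have hS : ∀ k, (S (k + 1)).1 = (update (S k).1.1 k (N k (S k).1 (S k).2),
      update (S k).1.2 k (M k (S k).1 (S k).2)) := fun k => rfl
  let U : ℕ → ℕ := fun j => (S (j + 1)).1.1 j
  let V : ℕ → ℕ := fun j => (S (j + 1)).1.2 j
  have hag : ∀ k j, j < k → (S k).1.1 j = U j ∧ (S k).1.2 j = V j := by
    intro k
    induction k with
    | zero => intro j hj; exact absurd hj (Nat.not_lt_zero _)
    | succ k ih =>
      intro j hj
      rcases Nat.lt_succ_iff_lt_or_eq.1 hj with h4 | h4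
      · rw [hS]
        simp only
        rw [update_of_ne h4.ne, update_of_ne h4.ne]
        exact ih j h4
      · subst h4
        exact ⟨rfl, rfl⟩
  have hQ : ∀ k, Q i₀ x y k (fun j => U j) (fun j => V j) := by
    intro k
    have h4 := (S k).2
    unfold QQ at h4
    have e1 : (fun j : Fin k => (S k).1.1 j) = fun j : Fin k => U j := by
      funext j
      exact (hag k j j.2).1
    have e2 : (fun j : Fin k => (S k).1.2 j) = fun j : Fin k => V j := by
      funext j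
      exact (hag k j j.2).2
    rw [e1, e2] at h4
    exact h4
  have hU : ∀ n, U (2 * n) = n := by
    intro n
    show (S (2 * n + 1)).1.1 (2 * n) = n
    rw [hS]
    simp only
    rw [update_self, h2 (2 * n) _ _ (by omega)]
    omega
  have hV : ∀ n, V (2 * n + 1) = n := by
    intro n
    show (S (2 * n + 1 + 1)).1.2 (2 * n + 1) = n
    rw [hS]
    simp only
    rw [update_self, h3 (2 * n + 1) _ _ (by omega)]
    omega
  have heq : ∀ i j, U i = U j ↔ V i = V j := by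
    intro i j
    have h4 := hQ (max i j + 1) (.eq ⟨i, by omega⟩ ⟨j, by omega⟩)
    exact h4
  refine ⟨⟨fun p => V (2 * p), fun q => U (2 * q + 1), ?_, ?_⟩, ?_⟩
  · intro p
    show U (2 * V (2 * p) + 1) = p
    have h4 : V (2 * V (2 * p) + 1) = V (2 * p) := hV _
    rw [← heq] at h4
    rw [h4, hU]
  · intro q
    show V (2 * U (2 * q + 1)) = q
    have h4 : U (2 * U (2 * q + 1)) = U (2 * q + 1) := hU _
    rw [heq] at h4
    rw [h4, hV]
  · intro i hi w
    have h4 := hQ ((Finset.univ.sup fun l => 2 * w l) + 1)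
      (.rel i fun l => ⟨2 * w l, Nat.lt_succ_of_le (Finset.le_sup (f := fun l => 2 * w l)
        (Finset.mem_univ l))⟩)
    simp only [Sat] at h4
    have h5 := (and_congr_right_iff.1 h4) hi
    have e1 : ((fun j : Fin ((Finset.univ.sup fun l => 2 * w l) + 1) => U j) ∘
        fun l => ⟨2 * w l, Nat.lt_succ_of_le (Finset.le_sup (f := fun l => 2 * w l)
        (Finset.mem_univ l))⟩) = w := by
      funext l
      exact hU _
    rw [e1] at h5
    show y i (fun l => V (2 * w l)) = x i w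
    rw [Bool.eq_iff_iff]
    exact h5.symm

/-- replacing the unary relation `i₀` -/
def rp (i₀ : ℕ) (ha : a i₀ = 1) (x : Str a) (A : ℕ → Bool) : Str a := fun i v =>
  if h : i = i₀ then A (v ⟨0, by rw [h, ha]; exact Nat.one_pos⟩) else x i v

theorem rp_same {i₀ : ℕ} {ha : a i₀ = 1} {x : Str a} {A : ℕ → Bool} (v : Fin (a i₀) → ℕ) :
    rp i₀ ha x A i₀ v = A (v ⟨0, by rw [ha]; exact Nat.one_pos⟩) := by
  unfold rp
  rw [dif_pos rfl]

theorem rp_ne {i₀ : ℕ} {ha : a i₀ = 1} {x : Str a} {A : ℕ → Bool} {i : ℕ} (hi : i ≠ i₀)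
    (v : Fin (a i) → ℕ) : rp i₀ ha x A i v = x i v := by
  unfold rp
  rw [dif_neg hi]

theorem iso_rp {i₀ : ℕ} {ha : a i₀ = 1} {x y : Str a} {A C : ℕ → Bool} {σ : Equiv.Perm ℕ}
    (h1 : Pres i₀ x y σ) (h2 : ∀ n, C (σ n) = A n) : Iso (rp i₀ ha x A) (rp i₀ ha y C) := by
  refine ⟨σ, fun i v => ?_⟩
  by_cases hi : i = i₀
  · subst hi
    rw [rp_same, rp_same]
    exact h2 _
  · rw [rp_ne hi, rp_ne hi]
    exact h1 i hi v

theorem of_iso_rp {i₀ : ℕ} {ha : a i₀ = 1} {x : Str a} {A C : ℕ → Bool}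
    (h : Iso (rp i₀ ha x A) (rp i₀ ha x C)) : ∃ g ∈ Gr i₀ x, ∀ n, C (g n) = A n := by
  obtain ⟨σ, hσ⟩ := h
  refine ⟨σ, fun i hi v => ?_, fun n => ?_⟩
  · have h1 := hσ i v
    rw [rp_ne hi, rp_ne hi] at h1
    exact h1
  · have h1 := hσ i₀ (fun _ => n)
    rw [rp_same, rp_same] at h1
    exact h1

theorem rp_self {i₀ : ℕ} {ha : a i₀ = 1} (x : Str a) :
    rp i₀ ha x (fun n => x i₀ fun _ => n) = x := by
  funext i v
  by_cases hi : i = i₀
  · subst hi
    rw [rp_same]
    congr 1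
    funext j
    congr 1
    apply Fin.ext
    have := j.2
    simp only
    omega
  · rw [rp_ne hi]

theorem continuous_rp {i₀ : ℕ} {ha : a i₀ = 1} (x : Str a) : Continuous (rp i₀ ha x) := by
  rw [continuous_pi_iff]
  intro i
  rw [continuous_pi_iff]
  intro v
  by_cases hi : i = i₀
  · subst hi
    have : (fun A => rp i ha x A i v) = fun A => A (v ⟨0, by rw [ha]; exact Nat.one_pos⟩) := by
      funext A
      exact rp_same v
    rw [this]
    exact continuous_apply _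
  · have : (fun A => rp i₀ ha x A i v) = fun A => x i v := by
      funext A
      exact rp_ne hi v
    rw [this]
    exact continuous_const

theorem cont_ev {X : Type} [TopologicalSpace X] {f : X → ℕ → ℕ} {g : X → ℕ}
    (hf : Continuous f) (hg : Continuous g) : Continuous fun p => f p (g p) := by
  have h1 : Continuous fun q : (ℕ → ℕ) × ℕ => q.1 q.2 := by
    rw [continuous_prod_of_discrete_right]
    intro n
    exact continuous_apply n
  exact h1.comp (hf.prodMk hg)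

theorem cont_evB {X : Type} [TopologicalSpace X] {f : X → ℕ → Bool} {g : X → ℕ}
    (hf : Continuous f) (hg : Continuous g) : Continuous fun p => f p (g p) := by
  have h1 : Continuous fun q : (ℕ → Bool) × ℕ => q.1 q.2 := by
    rw [continuous_prod_of_discrete_right]
    intro n
    exact continuous_apply n
  exact h1.comp (hf.prodMk hg)

theorem analytic_rel (i₀ : ℕ) (x : Str a) {A : (ℕ → Bool) → ℕ → Bool} (hA : Continuous A) :
    AnalyticSet {p : (ℕ → Bool) × (ℕ → Bool) | ∃ g ∈ Gr i₀ x, ∀ n, A p.2 (g n) = A p.1 n} := by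
  let D : Set (((ℕ → Bool) × (ℕ → Bool)) × ((ℕ → ℕ) × (ℕ → ℕ))) :=
    {q | (∀ n, q.2.1 (q.2.2 n) = n) ∧ (∀ n, q.2.2 (q.2.1 n) = n) ∧
      (∀ i, i ≠ i₀ → ∀ v : Fin (a i) → ℕ, x i (q.2.1 ∘ v) = x i v) ∧
      ∀ n, A q.1.2 (q.2.1 n) = A q.1.1 n}
  have hc1 : Continuous fun q : ((ℕ → Bool) × (ℕ → Bool)) × ((ℕ → ℕ) × (ℕ → ℕ)) => q.2.1 :=
    continuous_fst.comp continuous_snd
  have hc2 : Continuous fun q : ((ℕ → Bool) × (ℕ → Bool)) × ((ℕ → ℕ) × (ℕ → ℕ)) => q.2.2 :=
    continuous_snd.comp continuous_snd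
  have hD : IsClosed D := by
    have e : D = (⋂ n, {q | q.2.1 (q.2.2 n) = n}) ∩ ((⋂ n, {q | q.2.2 (q.2.1 n) = n}) ∩
        ((⋂ i, ⋂ (_ : i ≠ i₀), ⋂ v : Fin (a i) → ℕ, {q | x i (q.2.1 ∘ v) = x i v}) ∩
          ⋂ n, {q | A q.1.2 (q.2.1 n) = A q.1.1 n})) := by
      ext q
      simp only [D, mem_setOf_eq, mem_inter_iff, mem_iInter]
    rw [e]
    refine IsClosed.inter (isClosed_iInter fun n => ?_) (IsClosed.inter
      (isClosed_iInter fun n => ?_) (IsClosed.inter (isClosed_iInter fun i =>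
        isClosed_iInter fun _ => isClosed_iInter fun v => ?_) (isClosed_iInter fun n => ?_)))
    · exact isClosed_eq (cont_ev hc1 ((continuous_apply n).comp hc2)) continuous_const
    · exact isClosed_eq (cont_ev hc2 ((continuous_apply n).comp hc1)) continuous_const
    · refine isClosed_eq ?_ continuous_const
      have h1 : Continuous fun w : Fin (a i) → ℕ => x i w := continuous_of_discreteTopology
      refine h1.comp ?_
      rw [continuous_pi_iff]
      intro j
      exact (continuous_apply (v j)).comp hc1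
    · refine isClosed_eq (cont_evB (hA.comp (continuous_snd.comp continuous_fst))
        ((continuous_apply n).comp hc1)) ?_
      exact (continuous_apply n).comp (hA.comp (continuous_fst.comp continuous_fst))
  have e2 : {p : (ℕ → Bool) × (ℕ → Bool) | ∃ g ∈ Gr i₀ x, ∀ n, A p.2 (g n) = A p.1 n} =
      Prod.fst '' D := by
    ext p
    constructor
    · rintro ⟨g, hg, h1⟩
      refine ⟨(p, (⇑g, ⇑g.symm)), ⟨fun n => g.apply_symm_apply n, fun n => g.symm_apply_apply n,
        fun i hi v => hg i hi v, h1⟩, rfl⟩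
    · rintro ⟨q, ⟨h1, h2, h3, h4⟩, rfl⟩
      exact ⟨⟨q.2.1, q.2.2, h2, h1⟩, fun i hi v => h3 i hi v, h4⟩
  rw [e2]
  have t1 : TopologicalSpace.IsCompletelyMetrizableSpace (ℕ → Bool) := inferInstance
  have t2 : TopologicalSpace.SeparableSpace (ℕ → Bool) := inferInstance
  have t3 : PolishSpace (ℕ → Bool) :=
    @instPolishSpaceOfSeparableSpaceOfIsCompletelyMetrizableSpace _ _ t2 t1
  have t4 : PolishSpace (ℕ → ℕ) := inferInstance
  exact hD.analyticSet.image_of_continuous continuous_fst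

theorem few_of {i₀ : ℕ} (ha : a i₀ = 1) {B : Set (Str a)}
    (hcl : ∀ x ∈ B, ∀ y : Str a, (∀ i, i ≠ i₀ → y i = x i) → y ∈ B) (hP : ¬ Perf B)
    {x : Str a} (hx : x ∈ B) : Few (Gr i₀ x) := by
  rintro ⟨A, hA, hc⟩
  apply hP
  obtain ⟨h, h1, h2⟩ := Pool.Agent.H566W.perfect_independent
    (fun c d => ∃ g ∈ Gr i₀ x, ∀ n, A d (g n) = A c n) (analytic_rel i₀ x hA) hc
  refine ⟨fun b => rp i₀ ha x (A (h b)), (continuous_rp x).comp (hA.comp h1), fun b => ?_,
    fun b b' hi => ?_⟩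
  · refine hcl x hx _ fun i hi => ?_
    funext v
    exact rp_ne hi v
  · by_contra hne
    exact h2 b b' hne (of_iso_rp hi)

theorem s_asm : S_ASM := by
  intro hG a i₀ ha B hB hinv hcl
  classical
  by_cases hP : Perf B
  · exact Or.inr hP
  left
  have hgrp : ∀ x ∈ B, Oli (Gr i₀ x) ∧
      ∃ f : ℕ → ℕ → Bool, ∀ A : ℕ → Bool, ∃ n, ∃ g ∈ Gr i₀ x, ∀ m, A (g m) = f n m :=
    fun x hx => hG _ (clo_Gr i₀ x) (few_of ha hcl hP hx)
  have : StandardBorelSpace {x // x ∈ B} := hB.standardBorel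
  let J : {x // x ∈ B} → Fm a 0 → Bool := fun y φ => decide (Sat i₀ y.1 φ Fin.elim0)
  have hJc : (range J).Countable := by
    by_contra hc
    apply hP
    refine perf_of_inv (B := B) (Y := {x // x ∈ B}) (Z := Fm a 0 → Bool) (ι := Unit)
      (fun y => y.1) measurable_subtype_coe (fun y => y.2) (fun _ => J) ?_ ?_ ?_
    · intro _
      rw [measurable_pi_iff]
      intro φ
      apply measurable_to_bool
      have e : (fun y : {x // x ∈ B} => J y φ) ⁻¹' {true} =
          {y | Sat i₀ y.1 φ Fin.elim0} := by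
        ext c
        exact decide_eq_true_iff
      rw [e]
      apply measurableSet_setOfPred.2
      exact (measurable_Sat i₀ φ _).comp measurable_subtype_coe
    · rintro y y' ⟨σ, hσ⟩ _
      refine ⟨(), ?_⟩
      funext φ
      show decide _ = decide _
      have h1 : Pres i₀ y.1 y'.1 σ := fun i _ v => hσ i v
      have h2 := sat_pres h1 φ Fin.elim0
      have h3 : (⇑σ ∘ Fin.elim0 : Fin 0 → ℕ) = Fin.elim0 := Subsingleton.elim _ _
      rw [h3] at h2
      simp only [decide_eq_decide]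
      exact h2.symm
    · intro h1
      apply hc
      refine h1.mono ?_
      intro z hz
      exact mem_iUnion.2 ⟨(), hz⟩
  rcases B.eq_empty_or_nonempty with hBe | ⟨x₀, hx₀⟩
  · refine ⟨fun _ _ _ => false, fun x hx => ?_⟩
    rw [hBe] at hx
    exact absurd hx (Set.notMem_empty _)
  obtain ⟨e, he⟩ := hJc.exists_eq_range ⟨_, ⟨⟨x₀, hx₀⟩, rfl⟩⟩
  have h1 : ∀ n, ∃ y : {x // x ∈ B}, J y = e n := by
    intro n
    have : e n ∈ range J := by rw [he]; exact ⟨n, rfl⟩
    exact this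
  choose y hy using h1
  have h2 : ∀ n, ∃ f : ℕ → ℕ → Bool, ∀ A : ℕ → Bool, ∃ k, ∃ g ∈ Gr i₀ (y n).1,
      ∀ m, A (g m) = f k m := fun n => (hgrp (y n).1 (y n).2).2
  choose f hf using h2
  refine ⟨fun p => rp i₀ ha (y p.unpair.1).1 (f p.unpair.1 p.unpair.2), fun x hx => ?_⟩
  have h3 : J ⟨x, hx⟩ ∈ range e := by rw [← he]; exact ⟨_, rfl⟩
  obtain ⟨n, hn⟩ := h3
  have h4 : ∀ φ : Fm a 0, Sat i₀ (y n).1 φ Fin.elim0 ↔ Sat i₀ x φ Fin.elim0 := by
    intro φ
    have h5 := congrFun ((hy n).trans hn) φ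
    have h6 : decide (Sat i₀ (y n).1 φ Fin.elim0) = decide (Sat i₀ x φ Fin.elim0) := h5
    simpa only [decide_eq_decide] using h6
  obtain ⟨σ, hσ⟩ := iso_of_theory (hgrp _ (y n).2).1 (hgrp x hx).1 h4
  obtain ⟨k, g, hg, hk⟩ := hf n (fun m => x i₀ fun _ => σ m)
  refine ⟨Nat.pair n k, ?_⟩
  simp only [Nat.unpair_pair]
  have h7 : Pres i₀ (y n).1 x (σ * g) := by
    intro i hi v
    have e1 : ⇑(σ * g) ∘ v = ⇑σ ∘ (⇑g ∘ v) := rfl
    rw [e1, hσ i hi, hg i hi]
  have h8 : Iso (rp i₀ ha (y n).1 (f n k)) (rp i₀ ha x (fun m => x i₀ fun _ => m)) := by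
    refine iso_rp h7 fun m => ?_
    exact hk m
  rw [rp_self] at h8
  exact h8

end Pool.Agent.L7h7.FP
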